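import Mathlib.LinearAlgebra.Dimension.Finrank
import Mathlib.Data.Real.Basic
import Mathlib.LinearAlgebra.AffineSpace.AffineSubspace.Defs
import Mathlib.Order.Grade

namespace Pool.Agent.MP_492a05_co

open Classical in
/-- The rank of a face in the face lattice: `0` for the empty face, and the dimension plus one
otherwise. -/
noncomputable def faceRank {E : Type*} [AddCommGroup E] [Module ℝ E] (F : Set E) : ℕ :=
  if F = ∅ then 0 else Module.finrank ℝ (vectorSpan ℝ F) + 1

/-- Every interval `[x, y]` with `x < y` has as many elements of even rank as of odd rank. -/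
def IsEulerian (Q : Type*) [PartialOrder Q] [GradeMinOrder ℕ Q] : Prop :=
  ∀ x y : Q, x < y → {z ∈ Set.Icc x y | Even (grade ℕ z)}.ncard =
    {z ∈ Set.Icc x y | Odd (grade ℕ z)}.ncard

end Pool.Agent.MP_492a05_co
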