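import Mathlib.Topology.Sheaves.Presheaf
import Mathlib.Tactic.Monotonicity.Lemmas
import Mathlib.Algebra.Module.Torsion.Prod
import Mathlib.RingTheory.Flat.TorsionFree
import Mathlib.Data.Int.Star
import Mathlib.Algebra.Order.Ring.Star
import Mathlib.Analysis.RCLike.Lemmas
import Mathlib.Algebra.Order.Star.Real
import Mathlib.Analysis.Convex.Exposed
import Mathlib.Combinatorics.SimpleGraph.Basic
import Mathlib.Combinatorics.Enumerative.DoubleCounting
import Mathlib.RingTheory.SimpleRing.Principal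
import Mathlib.Order.CompletePartialOrder
import Mathlib.RingTheory.TotallySplit
import Mathlib.RingTheory.Etale.Weakly
import Mathlib.Tactic.Algebra.Basic
import Pool.Agent.MP_492a05_co.Defs

-- ======== part 0: formerly Pool.Agent.MP_492a05_co.Thin
section MrgPart0

/-! Thin graded posets and connectivity of atoms. -/

namespace Pool.Agent.MP_492a05_co

/-- Graded posets with the diamond property, with an integer valued rank function. -/
structure Thin {Q : Type*} [PartialOrder Q] (σ : Q → ℤ) : Prop where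
  mono : StrictMono σ
  mid : ∀ a b, a < b → σ a + 2 ≤ σ b → ∃ c, a < c ∧ c < b
  diamond : ∀ a b, a < b → σ b = σ a + 2 →
    ∃ c c', c ≠ c' ∧ ∀ e, (a < e ∧ e < b) ↔ (e = c ∨ e = c')

/-- Every open interval of length at least three is connected. -/
def Conn {L : Type*} [PartialOrder L] (ρ : L → ℤ) : Prop :=
  ∀ a b, ρ a + 3 ≤ ρ b → ∀ S : L → Prop,
    (∀ c c', a < c → c < b → a < c' → c' < b → (c ≤ c' ∨ c' ≤ c) → S c → S c') →
    ∀ c c', a < c → c < b → a < c' → c' < b → S c → S c'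

section
variable {Q : Type*} [PartialOrder Q] {σ : Q → ℤ}

lemma Thin.dual (h : Thin σ) : Thin (Q := Qᵒᵈ) (fun x => -σ (OrderDual.ofDual x)) where
  mono := fun a b hab => neg_lt_neg (h.mono hab)
  mid := fun a b hab hr => by
    obtain ⟨c, h1, h2⟩ := h.mid (OrderDual.ofDual b) (OrderDual.ofDual a) hab (by linarith)
    exact ⟨c, h2, h1⟩
  diamond := fun a b hab hr => by
    obtain ⟨c, c', h1, h2⟩ := h.diamond (OrderDual.ofDual b) (OrderDual.ofDual a) hab (by linarith)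
    exact ⟨c, c', h1, fun e => and_comm.trans (h2 e)⟩

lemma Conn.dual (h : Conn σ) : Conn (L := Qᵒᵈ) (fun x => -σ (OrderDual.ofDual x)) := by
  intro a b hr S hS c c' h1 h2 h3 h4 hc
  exact h (OrderDual.ofDual b) (OrderDual.ofDual a) (by linarith) S
    (fun d d' e1 e2 e3 e4 e5 => hS d d' e2 e1 e4 e3 e5.symm) c c' h2 h1 h4 h3 hc

lemma Thin.eq_of_le (h : Thin σ) {a b : Q} (hab : a ≤ b) (hr : σ b ≤ σ a) : a = b := by
  by_contra hne
  exact absurd (h.mono (lt_of_le_of_ne hab hne)) (not_lt.2 hr)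

lemma Thin.lt_of_le (_h : Thin σ) {a b : Q} (hab : a ≤ b) (hr : σ a < σ b) : a < b :=
  lt_of_le_of_ne hab fun e => by rw [e] at hr; exact lt_irrefl _ hr

lemma Thin.le (h : Thin σ) {a b : Q} (hab : a ≤ b) : σ a ≤ σ b := h.mono.monotone hab

lemma Thin.exists_rank (h : Thin σ) {a b : Q} (hab : a ≤ b) {k : ℤ} (h1 : σ a ≤ k) (h2 : k ≤ σ b) :
    ∃ c, a ≤ c ∧ c ≤ b ∧ σ c = k := by
  obtain ⟨n, hn⟩ : ∃ n : ℕ, σ b - σ a ≤ n := ⟨(σ b - σ a).toNat, Int.self_le_toNat _⟩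
  induction n generalizing a b with
  | zero => exact ⟨a, le_rfl, hab, by simp at hn; omega⟩
  | succ n ih =>
    by_cases e1 : σ a = k
    · exact ⟨a, le_rfl, hab, e1⟩
    by_cases e2 : σ b = k
    · exact ⟨b, hab, le_rfl, e2⟩
    obtain ⟨c, hc1, hc2⟩ := h.mid a b (h.lt_of_le hab (by omega)) (by omega)
    have r1 := h.mono hc1
    have r2 := h.mono hc2
    rcases le_total k (σ c) with hk | hk
    · obtain ⟨d, d1, d2, d3⟩ := ih hc1.le h1 hk (by push_cast at hn; omega)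
      exact ⟨d, d1, d2.trans hc2.le, d3⟩
    · obtain ⟨d, d1, d2, d3⟩ := ih hc2.le hk h2 (by push_cast at hn; omega)
      exact ⟨d, hc1.le.trans d1, d2, d3⟩

/-- The atoms of an interval are connected through the elements of rank two. -/
lemma Thin.atoms_conn (h : Thin σ) (hc : Conn σ) (a : Q) (S : Q → Prop) (b : Q)
    (hS : ∀ H H' T, a ≤ H → a ≤ H' → σ H = σ a + 1 → σ H' = σ a + 1 → H ≤ T → H' ≤ T →
      σ T = σ a + 2 → T ≤ b → S H → S H') :
    ∀ H H', a ≤ H → a ≤ H' → σ H = σ a + 1 → σ H' = σ a + 1 → H ≤ b → H' ≤ b → S H → S H' := by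
  obtain ⟨n, hn⟩ : ∃ n : ℕ, σ b - σ a ≤ n := ⟨(σ b - σ a).toNat, Int.self_le_toNat _⟩
  induction n generalizing b with
  | zero =>
    intro H H' _ _ r1 _ l1 _ _
    have := h.le l1
    simp at hn; omega
  | succ n ih =>
    intro H H' a1 a2 r1 r2 l1 l2 hH
    have := h.le l1
    by_cases e1 : σ b = σ a + 1
    · rwa [h.eq_of_le l2 (by omega), ← h.eq_of_le l1 (by omega)]
    by_cases e2 : σ b = σ a + 2
    · exact hS H H' b a1 a2 r1 r2 l1 l2 e2 le_rfl hH
    have key := hc a b (by omega) (fun c => ∀ K, a ≤ K → σ K = σ a + 1 → K ≤ c → S K)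
      (fun c c' c1 c2 c3 c4 hcc hSc K k1 k2 k3 => by
        rcases hcc with hcc | hcc
        · obtain ⟨K0, k4, k5, k6⟩ := h.exists_rank c1.le (k := σ a + 1) (by omega)
            (by have := h.mono c1; omega)
          refine ih c' (fun H H' T t1 t2 t3 t4 t5 t6 t7 t8 =>
            hS H H' T t1 t2 t3 t4 t5 t6 t7 (t8.trans c4.le)) ?_ K0 K k4 k1 k6 k2 (k5.trans hcc) k3
            (hSc K0 k4 k6 k5)
          have := h.mono c4
          push_cast at hn; omega
        · exact hSc K k1 k2 (k3.trans hcc))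
      H H' (h.lt_of_le a1 (by omega)) (h.lt_of_le l1 (by omega)) (h.lt_of_le a2 (by omega))
      (h.lt_of_le l2 (by omega))
      (fun K _ k2 k3 => by rwa [h.eq_of_le k3 (by omega)])
    exact key H' a2 r2 le_rfl

end

end Pool.Agent.MP_492a05_co

end MrgPart0

-- ======== part 1: formerly Pool.Agent.MP_492a05_co.Cone
section MrgPart1

/-! Faces of a finitely generated cone, encoded as sets of generators. -/

open Module Submodule Filter Topology

namespace Pool.Agent.MP_492a05_co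

variable {W ι : Type*} [AddCommGroup W] [Module ℝ W] [FiniteDimensional ℝ W] [Finite ι]
  (v : ι → W)

/-- `A` is the set of generators on which a supporting functional vanishes. -/
def IsFace (A : Set ι) : Prop :=
  ∃ l : W →ₗ[ℝ] ℝ, (∀ i, 0 ≤ l (v i)) ∧ ∀ i, i ∈ A ↔ l (v i) = 0

/-- Rank of a set of generators. -/
noncomputable def rk (A : Set ι) : ℕ := finrank ℝ (span ℝ (v '' A))

variable {v}

omit [FiniteDimensional ℝ W] [Finite ι] in
lemma vanish {A : Set ι} {l : W →ₗ[ℝ] ℝ} (h : ∀ i ∈ A, l (v i) = 0) {u : W}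
    (hu : u ∈ span ℝ (v '' A)) : l u = 0 := by
  have : span ℝ (v '' A) ≤ LinearMap.ker l := span_le.2 (by rintro _ ⟨i, hi, rfl⟩; exact h i hi)
  exact this hu

omit [Finite ι] in
lemma rk_lt {A B : Set ι} (hAB : A ⊆ B) {l : W →ₗ[ℝ] ℝ} (h : ∀ i ∈ A, l (v i) = 0) {j : ι}
    (hj : j ∈ B) (hl : l (v j) ≠ 0) : rk v A < rk v B :=
  finrank_lt_finrank_of_lt (lt_of_le_of_ne (span_mono (Set.image_mono hAB)) fun e =>
    hl (vanish h (e ▸ subset_span ⟨j, hj, rfl⟩)))

omit [FiniteDimensional ℝ W] in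
lemma IsFace.rel {B : Set ι} (hB : IsFace v B) (l : W →ₗ[ℝ] ℝ) (hl : ∀ i ∈ B, 0 ≤ l (v i)) :
    IsFace v {i | i ∈ B ∧ l (v i) = 0} := by
  obtain ⟨m, m1, m2⟩ := hB
  obtain ⟨M, hM⟩ := (Set.finite_range fun i => |l (v i)| / m (v i)).bddAbove
  have key : ∀ i, i ∉ B → 0 < l (v i) + (M + 1) * m (v i) := by
    intro i hi
    have h1 : 0 < m (v i) := lt_of_le_of_ne (m1 i) fun e => hi ((m2 i).2 e.symm)
    have h2 : |l (v i)| / m (v i) ≤ M := hM ⟨i, rfl⟩
    rw [div_le_iff₀ h1] at h2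
    nlinarith [neg_abs_le (l (v i))]
  refine ⟨l + (M + 1) • m, fun i => ?_, fun i => ?_⟩
  · by_cases hi : i ∈ B
    · simpa [(m2 i).1 hi] using hl i hi
    · simpa using (key i hi).le
  · by_cases hi : i ∈ B
    · simp [hi, (m2 i).1 hi]
    · simpa [hi] using (key i hi).ne'

omit [Finite ι] in
lemma exists_functional {U : Type*} [AddCommGroup U] [Module ℝ U] [FiniteDimensional ℝ U]
    (φ : W →ₗ[ℝ] U) {A B : Set ι} (h : rk v A + finrank ℝ U < rk v B) :
    ∃ (l : W →ₗ[ℝ] ℝ) (u : W), (∀ i ∈ A, l (v i) = 0) ∧ u ∈ span ℝ (v '' B) ∧ φ u = 0 ∧ l u ≠ 0 := by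
  have h1 := φ.finrank_range_add_finrank_ker
  have h2 := finrank_sup_add_finrank_inf_eq (span ℝ (v '' B)) (LinearMap.ker φ)
  have h3 := (LinearMap.range φ).finrank_le
  have h4 := (span ℝ (v '' B) ⊔ LinearMap.ker φ).finrank_le
  have h5 : ¬ (span ℝ (v '' B) ⊓ LinearMap.ker φ ≤ span ℝ (v '' A)) := by
    intro hle
    have := Submodule.finrank_mono hle
    unfold rk at h
    omega
  obtain ⟨u, u1, u2⟩ := SetLike.not_le_iff_exists.1 h5
  obtain ⟨l, l1, l2⟩ := Submodule.exists_le_ker_of_notMem u2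
  exact ⟨l, u, fun i hi => l2 (subset_span ⟨i, hi, rfl⟩), u1.1, u1.2, l1⟩

/-- The generators of `B` at which the ratio `l / l0` is minimal. -/
def low (v : ι → W) (B : Set ι) (l0 l : W →ₗ[ℝ] ℝ) : Set ι :=
  {i | i ∈ B ∧ ∀ j ∈ B, l (v i) * l0 (v j) ≤ l (v j) * l0 (v i)}

/-- `l` is not proportional to `l0` on `B`. -/
def NP (v : ι → W) (B : Set ι) (l0 l : W →ₗ[ℝ] ℝ) : Prop := ¬ ∃ t : ℝ, ∀ i ∈ B, l (v i) = t * l0 (v i)

section
variable {A B : Set ι} {l0 : W →ₗ[ℝ] ℝ} (h0 : ∀ i, 0 ≤ l0 (v i)) (hA : ∀ i, i ∈ A ↔ l0 (v i) = 0)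
  (hB : IsFace v B) (hAB : A ⊂ B)
include h0 hA hB hAB

omit [FiniteDimensional ℝ W] in
lemma low_spec {l : W →ₗ[ℝ] ℝ} (hl : ∀ i ∈ A, l (v i) = 0) (hn : NP v B l0 l) :
    IsFace v (low v B l0 l) ∧ A ⊂ low v B l0 l ∧ low v B l0 l ⊂ B := by
  have hpos : ∀ i, i ∉ A → 0 < l0 (v i) := fun i hi =>
    lt_of_le_of_ne (h0 i) fun e => hi ((hA i).2 e.symm)
  obtain ⟨j0, ⟨j1, j2⟩, hj⟩ := Set.exists_min_image (B \ A) (fun i => l (v i) / l0 (v i))
    (Set.toFinite _) (Set.nonempty_of_ssubset hAB)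
  have p0 := hpos j0 j2
  set t := l (v j0) / l0 (v j0) with ht
  have ht0 : l (v j0) = t * l0 (v j0) := by rw [ht]; field_simp
  have hge : ∀ i ∈ B, t * l0 (v i) ≤ l (v i) := by
    intro i hi
    by_cases hiA : i ∈ A
    · rw [hl i hiA, (hA i).1 hiA, mul_zero]
    · exact (le_div_iff₀ (hpos i hiA)).1 (hj i ⟨hi, hiA⟩)
  have heq : low v B l0 l = {i | i ∈ B ∧ (l - t • l0) (v i) = 0} := by
    ext i
    simp only [low, Set.mem_ofPred_eq, LinearMap.sub_apply, LinearMap.smul_apply, smul_eq_mul]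
    refine and_congr_right fun hi => ⟨fun h => ?_, fun h j hj => ?_⟩
    · have h1 := h j0 j1
      have h2 := hge i hi
      rw [ht0] at h1
      have : l (v i) ≤ t * l0 (v i) := by nlinarith
      linarith
    · have h1 := hge j hj
      have h2 := h0 i
      have : l (v i) = t * l0 (v i) := by linarith
      rw [this]; nlinarith
  rw [heq]
  refine ⟨hB.rel _ fun i hi => by simpa using hge i hi, ⟨fun i hi => ⟨hAB.1 hi, ?_⟩, fun h => ?_⟩,
    ⟨fun i hi => hi.1, fun h => hn ⟨t, fun i hi => ?_⟩⟩⟩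
  · simp [hl i hi, (hA i).1 hi]
  · exact j2 (h ⟨j1, by simp [ht0]⟩)
  · have := (h hi).2
    simpa [sub_eq_zero] using this

omit [FiniteDimensional ℝ W] [Finite ι] hB hAB in
lemma exists_low {C : Set ι} (hC : IsFace v C) (h1 : A ⊂ C) (h2 : C ⊂ B) :
    ∃ l : W →ₗ[ℝ] ℝ, (∀ i ∈ A, l (v i) = 0) ∧ NP v B l0 l ∧ low v B l0 l = C := by
  obtain ⟨l, l1, l2⟩ := hC
  obtain ⟨j, j1, j2⟩ := Set.exists_of_ssubset h1
  obtain ⟨k, k1, k2⟩ := Set.exists_of_ssubset h2
  have p0 : 0 < l0 (v j) := lt_of_le_of_ne (h0 j) fun e => j2 ((hA j).2 e.symm)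
  refine ⟨l, fun i hi => (l2 i).1 (h1.1 hi), ?_, ?_⟩
  · rintro ⟨t, ht⟩
    have e1 := ht j (h2.1 j1)
    rw [(l2 j).1 j1] at e1
    have : t = 0 := by
      rcases mul_eq_zero.1 e1.symm with h | h
      · exact h
      · exact absurd h p0.ne'
    exact k2 ((l2 k).2 (by rw [ht k k1, this, zero_mul]))
  · ext i
    constructor
    · rintro ⟨-, hi⟩
      have := hi j (h2.1 j1)
      rw [(l2 j).1 j1, zero_mul] at this
      refine (l2 i).2 (le_antisymm ?_ (l1 i))
      by_contra hc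
      exact absurd this (not_le.2 (mul_pos (not_le.1 hc) p0))
    · intro hi
      refine ⟨h2.1 hi, fun j _ => ?_⟩
      rw [(l2 i).1 hi, zero_mul]
      exact mul_nonneg (l1 j) (h0 i)

omit [Finite ι] h0 hA hB hAB in
lemma exists_np (h : rk v A + 2 ≤ rk v B) :
    ∃ l : W →ₗ[ℝ] ℝ, (∀ i ∈ A, l (v i) = 0) ∧ NP v B l0 l := by
  obtain ⟨l, u, l1, u1, u2, u3⟩ := exists_functional (v := v) l0 (A := A) (B := B)
    (by rw [Module.finrank_self]; omega)
  refine ⟨l, l1, fun ⟨t, ht⟩ => u3 ?_⟩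
  have := vanish (l := l - t • l0) (fun i hi => by simp [ht i hi]) u1
  simpa [u2] using this

omit [Finite ι] h0 hA hB hAB in
lemma exists_np2 (h : rk v A + 3 ≤ rk v B) (l1 : W →ₗ[ℝ] ℝ) :
    ∃ l : W →ₗ[ℝ] ℝ, (∀ i ∈ A, l (v i) = 0) ∧
      ¬ ∃ s t : ℝ, ∀ i ∈ B, l (v i) = s * l0 (v i) + t * l1 (v i) := by
  obtain ⟨l, u, h1, u1, u2, u3⟩ := exists_functional (v := v) (l0.prod l1) (A := A) (B := B)
    (by rw [Module.finrank_prod, Module.finrank_self]; omega)
  refine ⟨l, h1, fun ⟨s, t, ht⟩ => u3 ?_⟩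
  have := vanish (l := l - s • l0 - t • l1) (fun i hi => by simp [ht i hi]) u1
  simp only [LinearMap.prod_apply, Prod.mk_eq_zero, Function.prod] at u2
  simpa [u2.1, u2.2] using this

lemma diamond_aux (h : rk v B = rk v A + 2) :
    ∃ C C', C ≠ C' ∧ ∀ D, (IsFace v D ∧ A ⊂ D ∧ D ⊂ B) ↔ (D = C ∨ D = C') := by
  obtain ⟨l, l1, l2⟩ := exists_np (l0 := l0) h.ge
  have l3 : NP v B l0 (-l) := fun ⟨t, ht⟩ => l2 ⟨-t, fun i hi => by
    have := ht i hi
    simp only [LinearMap.neg_apply] at this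
    linarith⟩
  have s1 := low_spec h0 hA hB hAB l1 l2
  have s2 := low_spec h0 hA hB hAB (l := -l) (by simpa using l1) l3
  obtain ⟨j, j1, j2⟩ := Set.exists_of_ssubset s1.2.1
  obtain ⟨k, k1, k2⟩ := Set.exists_of_ssubset s1.2.2
  have p0 : 0 < l0 (v j) := lt_of_le_of_ne (h0 j) fun e => j2 ((hA j).2 e.symm)
  have hdet : l (v j) * l0 (v k) < l (v k) * l0 (v j) := by
    refine lt_of_le_of_ne (j1.2 k k1) fun e => k2 ⟨k1, fun i hi => ?_⟩
    have e1 := j1.2 i hi
    have e2 := h0 k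
    have e3 : (l (v k) * l0 (v i)) * l0 (v j) ≤ (l (v i) * l0 (v k)) * l0 (v j) := by
      calc _ = (l (v k) * l0 (v j)) * l0 (v i) := by ring
        _ = (l (v j) * l0 (v i)) * l0 (v k) := by rw [← e]; ring
        _ ≤ (l (v i) * l0 (v j)) * l0 (v k) := mul_le_mul_of_nonneg_right e1 e2
        _ = _ := by ring
    exact le_of_mul_le_mul_right e3 p0
  refine ⟨low v B l0 l, low v B l0 (-l), fun e => ?_, fun D => ⟨fun ⟨D1, D2, D3⟩ => ?_, ?_⟩⟩
  · have := (e ▸ j1 : j ∈ low v B l0 (-l)).2 k k1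
    simp only [LinearMap.neg_apply] at this
    linarith
  · obtain ⟨m, m1, m2, rfl⟩ := exists_low h0 hA D1 D2 D3
    have r1 : rk v A < rk v (insert j A) :=
      rk_lt (Set.subset_insert _ _) (fun i hi => (hA i).1 hi) (Set.mem_insert _ _) p0.ne'
    have r2 : rk v (insert j A) < rk v (insert k (insert j A)) :=
      rk_lt (l := l0 (v j) • l - l (v j) • l0) (Set.subset_insert _ _) (by
        rintro i (rfl | hi)
        · simp [mul_comm]
        · simp [l1 i hi, (hA i).1 hi]) (Set.mem_insert _ _) (by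
        simp only [LinearMap.sub_apply, LinearMap.smul_apply, smul_eq_mul]
        linarith)
    have r3 : span ℝ (v '' insert k (insert j A)) = span ℝ (v '' B) :=
      eq_of_le_of_finrank_le (span_mono (Set.image_mono
        (Set.insert_subset k1 (Set.insert_subset j1.1 hAB.1)))) (by unfold rk at *; omega)
    set Δ := l (v k) * l0 (v j) - l (v j) * l0 (v k) with hΔ
    have hΔ0 : Δ ≠ 0 := by linarith
    set s := (m (v j) * l (v k) - m (v k) * l (v j)) / Δ with hs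
    set t := (m (v k) * l0 (v j) - m (v j) * l0 (v k)) / Δ with ht
    have hm : ∀ i ∈ B, m (v i) = s * l0 (v i) + t * l (v i) := by
      intro i hi
      have hi' : v i ∈ span ℝ (v '' insert k (insert j A)) := by
        rw [r3]; exact subset_span ⟨i, hi, rfl⟩
      have := vanish (l := m - s • l0 - t • l) (A := insert k (insert j A)) (by
        rintro i (rfl | rfl | hi)
        · simp only [LinearMap.sub_apply, LinearMap.smul_apply, smul_eq_mul, hs, ht]
          field_simp; ring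
        · simp only [LinearMap.sub_apply, LinearMap.smul_apply, smul_eq_mul, hs, ht]
          field_simp; ring
        · simp [m1 i hi, l1 i hi, (hA i).1 hi]) hi'
      simp only [LinearMap.sub_apply, LinearMap.smul_apply, smul_eq_mul] at this
      linarith
    rcases lt_trichotomy t 0 with h' | h' | h'
    · right
      ext i
      refine and_congr_right fun hi => forall₂_congr fun i' hi' => ?_
      rw [hm i hi, hm i' hi']
      simp only [LinearMap.neg_apply]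
      constructor <;> intro h <;> nlinarith
    · exact absurd ⟨s, fun i hi => by rw [hm i hi, h']; ring⟩ m2
    · left
      ext i
      refine and_congr_right fun hi => forall₂_congr fun i' hi' => ?_
      rw [hm i hi, hm i' hi']
      constructor <;> intro h <;> nlinarith
  · rintro (rfl | rfl)
    exacts [s1, s2]

omit [FiniteDimensional ℝ W] in
lemma segment_conn (S : Set ι → Prop)
    (hS : ∀ C C', IsFace v C → A ⊂ C → C ⊂ B → IsFace v C' → A ⊂ C' → C' ⊂ B → C ⊆ C' →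
      (S C ↔ S C'))
    {l m : W →ₗ[ℝ] ℝ} (hl : ∀ i ∈ A, l (v i) = 0) (hm : ∀ i ∈ A, m (v i) = 0)
    (hn : NP v B l0 l) (hn2 : ¬ ∃ s t : ℝ, ∀ i ∈ B, m (v i) = s * l0 (v i) + t * l (v i)) :
    S (low v B l0 l) ↔ S (low v B l0 m) := by
  let p : ℝ → W →ₗ[ℝ] ℝ := fun s => (1 - s) • l + s • m
  have hp : ∀ s, IsFace v (low v B l0 (p s)) ∧ A ⊂ low v B l0 (p s) ∧ low v B l0 (p s) ⊂ B := by
    intro s
    refine low_spec h0 hA hB hAB (fun i hi => by simp [p, hl i hi, hm i hi]) ?_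
    rintro ⟨t, ht⟩
    by_cases hs : s = 0
    · exact hn ⟨t, by simpa [p, hs] using ht⟩
    · refine hn2 ⟨t / s, -(1 - s) / s, fun i hi => ?_⟩
      have := ht i hi
      simp only [p, LinearMap.add_apply, LinearMap.smul_apply, smul_eq_mul] at this
      field_simp
      linarith
  have husc : ∀ s, ∀ᶠ s' in 𝓝 s, low v B l0 (p s') ⊆ low v B l0 (p s) := by
    intro s
    have : ∀ i j, ∀ᶠ s' in 𝓝 s, p s' (v i) * l0 (v j) ≤ p s' (v j) * l0 (v i) →
        p s (v i) * l0 (v j) ≤ p s (v j) * l0 (v i) := by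
      intro i j
      by_cases h : p s (v i) * l0 (v j) ≤ p s (v j) * l0 (v i)
      · exact Eventually.of_forall fun _ _ => h
      · have c1 : Continuous fun s' => p s' (v i) * l0 (v j) := by
          simp only [p, LinearMap.add_apply, LinearMap.smul_apply, smul_eq_mul]; fun_prop
        have c2 : Continuous fun s' => p s' (v j) * l0 (v i) := by
          simp only [p, LinearMap.add_apply, LinearMap.smul_apply, smul_eq_mul]; fun_prop
        filter_upwards [c2.continuousAt.eventually_lt c1.continuousAt (not_le.1 h)] with s' h1 h2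
        exact absurd h1 (not_lt.2 h2)
    filter_upwards [eventually_all.2 fun i => eventually_all.2 fun j => this i j] with s' h i hi
    exact ⟨hi.1, fun j hj => h i j (hi.2 j hj)⟩
  have key := isPreconnected_univ.induction₂' (fun s s' => S (low v B l0 (p s)) ↔ S (low v B l0 (p s')))
    (fun s _ => by
      rw [nhdsWithin_univ]
      filter_upwards [husc s] with s' h
      have := hS _ _ (hp s').1 (hp s').2.1 (hp s').2.2 (hp s).1 (hp s).2.1 (hp s).2.2 h
      exact ⟨this.symm, this⟩)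
    (fun _ _ _ _ _ _ h1 h2 => h1.trans h2) (Set.mem_univ (0 : ℝ)) (Set.mem_univ 1)
  simpa [p] using key

lemma conn_aux (h : rk v A + 3 ≤ rk v B) (S : Set ι → Prop)
    (hS : ∀ C C', IsFace v C → A ⊂ C → C ⊂ B → IsFace v C' → A ⊂ C' → C' ⊂ B → C ⊆ C' →
      (S C ↔ S C'))
    {C C' : Set ι} (c1 : IsFace v C) (c2 : A ⊂ C) (c3 : C ⊂ B) (c4 : IsFace v C') (c5 : A ⊂ C')
    (c6 : C' ⊂ B) : S C ↔ S C' := by
  obtain ⟨l, l1, l2, rfl⟩ := exists_low h0 hA c1 c2 c3
  obtain ⟨m, m1, m2, rfl⟩ := exists_low h0 hA c4 c5 c6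
  obtain ⟨a, a1, a2⟩ := exists_np2 (l0 := l0) h l
  obtain ⟨b, b1, b2⟩ := exists_np2 (l0 := l0) h m
  obtain ⟨c, e1, e2, e3⟩ : ∃ c : W →ₗ[ℝ] ℝ, (∀ i ∈ A, c (v i) = 0) ∧
      (¬ ∃ s t : ℝ, ∀ i ∈ B, c (v i) = s * l0 (v i) + t * l (v i)) ∧
      (¬ ∃ s t : ℝ, ∀ i ∈ B, c (v i) = s * l0 (v i) + t * m (v i)) := by
    by_cases ha : ∃ s t : ℝ, ∀ i ∈ B, a (v i) = s * l0 (v i) + t * m (v i)
    · by_cases hb : ∃ s t : ℝ, ∀ i ∈ B, b (v i) = s * l0 (v i) + t * l (v i)
      · obtain ⟨s, t, ha⟩ := ha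
        obtain ⟨s', t', hb⟩ := hb
        refine ⟨a + b, fun i hi => by simp [a1 i hi, b1 i hi], fun ⟨x, y, hc⟩ => a2 ⟨x - s', y - t',
          fun i hi => ?_⟩, fun ⟨x, y, hc⟩ => b2 ⟨x - s, y - t, fun i hi => ?_⟩⟩
        · have := hc i hi
          rw [LinearMap.add_apply, hb i hi] at this
          linarith
        · have := hc i hi
          rw [LinearMap.add_apply, ha i hi] at this
          linarith
      · exact ⟨b, b1, hb, b2⟩
    · exact ⟨a, a1, a2, ha⟩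
  exact (segment_conn h0 hA hB hAB S hS l1 e1 l2 e2).trans
    (segment_conn h0 hA hB hAB S hS m1 e1 m2 e3).symm

end

end Pool.Agent.MP_492a05_co

end MrgPart1

-- ======== part 2: formerly Pool.Agent.MP_492a05_co.FaceLattice
section MrgPart2

/-! The lattice of faces of a finitely generated cone, and its comparison with the exposed faces
of a polytope. -/

open Module Submodule

namespace Pool.Agent.MP_492a05_co

section
variable {W ι : Type*} [AddCommGroup W] [Module ℝ W] [Finite ι] (v : ι → W)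

/-- The poset of faces. -/
def FL := {A : Set ι // IsFace v A}

lemma isFace_iInter (S : Set (FL v)) : IsFace v (⋂ A ∈ S, A.1) := by
  classical
  have : Finite (FL v) := inferInstanceAs (Finite {A : Set ι // IsFace v A})
  choose l h1 h2 using fun A : FL v => A.2
  refine ⟨∑ A ∈ (Set.toFinite S).toFinset, l A, fun i => ?_, fun i => ?_⟩
  · rw [LinearMap.sum_apply]
    exact Finset.sum_nonneg fun A _ => h1 A i
  · rw [LinearMap.sum_apply, Finset.sum_eq_zero_iff_of_nonneg fun A _ => h1 A i]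
    simp [h2]

instance : Finite (FL v) := inferInstanceAs (Finite {A : Set ι // IsFace v A})

instance : PartialOrder (FL v) := inferInstanceAs (PartialOrder {A : Set ι // IsFace v A})

instance : InfSet (FL v) := ⟨fun S => ⟨⋂ A ∈ S, A.1, isFace_iInter v S⟩⟩

noncomputable instance : CompleteLattice (FL v) :=
  completeLatticeOfInf (FL v) fun S =>
    ⟨fun A hA => show (⋂ A ∈ S, A.1) ⊆ A.1 from Set.biInter_subset_of_mem hA,
      fun B hB => show B.1 ⊆ ⋂ A ∈ S, A.1 from Set.subset_iInter₂ fun _ hA => hB hA⟩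

variable {v}

omit [Finite ι] in
lemma FL.le_iff {A B : FL v} : A ≤ B ↔ A.1 ⊆ B.1 := Iff.rfl

omit [Finite ι] in
lemma FL.lt_iff {A B : FL v} : A < B ↔ A.1 ⊂ B.1 := Iff.rfl

variable [FiniteDimensional ℝ W]

lemma FL.thin : Thin (fun A : FL v => (rk v A.1 : ℤ)) where
  mono := fun A B h => by
    obtain ⟨l, -, l2⟩ := A.2
    obtain ⟨j, j1, j2⟩ := Set.exists_of_ssubset (FL.lt_iff.1 h)
    have := rk_lt (v := v) (FL.lt_iff.1 h).1 (fun i hi => (l2 i).1 hi) j1 fun e => j2 ((l2 j).2 e)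
    simpa using this
  mid := fun A B h hr => by
    obtain ⟨l0, l1, l2⟩ := A.2
    obtain ⟨l, h1, h2⟩ := exists_np (v := v) (A := A.1) (B := B.1) (l0 := l0) (by omega)
    obtain ⟨s1, s2, s3⟩ := low_spec l1 l2 B.2 (FL.lt_iff.1 h) h1 h2
    exact ⟨⟨_, s1⟩, s2, s3⟩
  diamond := fun A B h hr => by
    obtain ⟨l0, l1, l2⟩ := A.2
    obtain ⟨C, C', hne, hC⟩ := diamond_aux l1 l2 B.2 (FL.lt_iff.1 h) (by omega)
    refine ⟨⟨C, ((hC C).2 (Or.inl rfl)).1⟩, ⟨C', ((hC C').2 (Or.inr rfl)).1⟩,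
      fun e => hne (congrArg Subtype.val e), fun D => ?_⟩
    have := hC D.1
    simp only [D.2, true_and] at this
    rw [FL.lt_iff, FL.lt_iff, this]
    exact or_congr ⟨fun e => Subtype.ext e, fun e => congrArg Subtype.val e⟩
      ⟨fun e => Subtype.ext e, fun e => congrArg Subtype.val e⟩

lemma FL.conn : Conn (fun A : FL v => (rk v A.1 : ℤ)) := by
  intro A B hr S hS C C' c1 c2 c3 c4 hC
  obtain ⟨l0, l1, l2⟩ := A.2
  have := conn_aux l1 l2 B.2 (FL.lt_iff.1 (c1.trans c2)) (by simp only at hr; omega)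
    (fun D => ∀ h : IsFace v D, S ⟨D, h⟩)
    (fun D D' d1 d2 d3 d4 d5 d6 d7 =>
      ⟨fun h _ => hS ⟨D, d1⟩ ⟨D', d4⟩ d2 d3 d5 d6 (Or.inl d7) (h d1),
        fun h _ => hS ⟨D', d4⟩ ⟨D, d1⟩ d5 d6 d2 d3 (Or.inr d7) (h d4)⟩)
    C.2 c1 c2 C'.2 c3 c4
  exact this.1 (fun _ => hC) C'.2

end

section
variable {E : Type*} [NormedAddCommGroup E] [NormedSpace ℝ E] [FiniteDimensional ℝ E]

/-- Homogenized generators. -/
def hom (V : Finset E) (i : V) : ℝ × E := (1, i.1)

lemma rk_hom (V : Finset E) (A : Set V) :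
    rk (hom V) A = faceRank (convexHull ℝ (Subtype.val '' A)) := by
  rcases A.eq_empty_or_nonempty with rfl | ⟨i0, hi0⟩
  · simp [rk, faceRank]
  have hne : convexHull ℝ (Subtype.val '' A) ≠ ∅ :=
    (Set.Nonempty.ne_empty ⟨i0.1, subset_convexHull _ _ ⟨i0, hi0, rfl⟩⟩)
  rw [faceRank, if_neg hne, ← direction_affineSpan, affineSpan_convexHull, direction_affineSpan,
    vectorSpan_eq_span_vsub_set_right ℝ (Set.mem_image_of_mem Subtype.val hi0)]
  have h1 : span ℝ (hom V '' A) = (span ℝ ((· -ᵥ i0.1) '' (Subtype.val '' A))).map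
      (LinearMap.inr ℝ ℝ E) ⊔ span ℝ {hom V i0} := by
    refine le_antisymm (span_le.2 ?_) (sup_le ?_ (span_mono (by simpa using ⟨i0, i0.2, hi0, rfl⟩)))
    · rintro _ ⟨i, hi, rfl⟩
      have : hom V i = LinearMap.inr ℝ ℝ E (i.1 -ᵥ i0.1) + hom V i0 := by simp [hom]
      rw [this]
      exact add_mem_sup (mem_map_of_mem (subset_span ⟨i.1, ⟨i, hi, rfl⟩, rfl⟩))
        (subset_span rfl)
    · rw [map_span, span_le]
      rintro _ ⟨_, ⟨_, ⟨i, hi, rfl⟩, rfl⟩, rfl⟩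
      have : LinearMap.inr ℝ ℝ E (i.1 -ᵥ i0.1) = hom V i - hom V i0 := by simp [hom]
      rw [this]
      exact sub_mem (subset_span ⟨i, hi, rfl⟩) (subset_span ⟨i0, hi0, rfl⟩)
  rw [rk, h1, finrank_sup_span_singleton,
    ← (Submodule.equivMapOfInjective _ LinearMap.inr_injective _).finrank_eq]
  rintro ⟨x, -, hx⟩
  simpa [hom] using congrArg Prod.fst hx

omit [FiniteDimensional ℝ E] in
lemma zero_set (V : Finset E) (l : ℝ × E →ₗ[ℝ] ℝ) (h : ∀ i, 0 ≤ l (hom V i)) :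
    (∀ x ∈ convexHull ℝ (V : Set E), 0 ≤ l (1, x)) ∧
    {x ∈ convexHull ℝ (V : Set E) | l (1, x) = 0} =
      convexHull ℝ (Subtype.val '' {i : V | l (hom V i) = 0}) := by
  classical
  have hcomb : ∀ w : E → ℝ, ∑ y ∈ V, w y = 1 →
      l (1, ∑ y ∈ V, w y • y) = ∑ y ∈ V, w y * l (1, y) := by
    intro w hw
    have : ((1 : ℝ), ∑ y ∈ V, w y • y) = ∑ y ∈ V, w y • ((1 : ℝ), y) := by
      ext
      · simp [Prod.fst_sum, hw]
      · simp [Prod.snd_sum]
    rw [this, map_sum]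
    simp only [map_smul, smul_eq_mul]
  have h' : ∀ y ∈ V, 0 ≤ l (1, y) := fun y hy => h ⟨y, hy⟩
  refine ⟨fun x hx => ?_, Set.Subset.antisymm (fun x ⟨hx, hx0⟩ => ?_) (convexHull_min ?_ ?_)⟩
  · obtain ⟨w, w0, w1, rfl⟩ := Finset.mem_convexHull'.1 hx
    rw [hcomb w w1]
    exact Finset.sum_nonneg fun y hy => mul_nonneg (w0 y hy) (h' y hy)
  · obtain ⟨w, w0, w1, rfl⟩ := Finset.mem_convexHull'.1 hx
    rw [hcomb w w1, Finset.sum_eq_zero_iff_of_nonneg
      fun y hy => mul_nonneg (w0 y hy) (h' y hy)] at hx0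
    have e1 : ∀ y ∈ V, w y ≠ 0 → l (1, y) = 0 := fun y hy hw =>
      (mul_eq_zero.1 (hx0 y hy)).resolve_left hw
    rw [← Finset.sum_filter_of_ne (p := fun y => l (1, y) = 0) e1] at w1
    rw [← Finset.sum_filter_of_ne (p := fun y => l (1, y) = 0)
      fun y hy hw => e1 y hy (left_ne_zero_of_smul hw)]
    refine (convex_convexHull ℝ _).sum_mem (fun y hy => w0 y (Finset.mem_filter.1 hy).1) w1
      fun y hy => subset_convexHull _ _ ?_
    exact ⟨⟨y, (Finset.mem_filter.1 hy).1⟩, (Finset.mem_filter.1 hy).2, rfl⟩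
  · rintro _ ⟨i, hi, rfl⟩
    exact ⟨subset_convexHull _ _ i.2, hi⟩
  · rintro x ⟨x1, x2⟩ y ⟨y1, y2⟩ a b ha hb hab
    refine ⟨convex_convexHull ℝ _ x1 y1 ha hb hab, ?_⟩
    have : ((1 : ℝ), a • x + b • y) = a • ((1 : ℝ), x) + b • ((1 : ℝ), y) := by
      ext <;> simp [hab]
    rw [this, map_add, map_smul, map_smul, x2, y2]; simp

lemma isExposed_of_face (V : Finset E) {A : Set V} (hA : IsFace (hom V) A) :
    IsExposed ℝ (convexHull ℝ (V : Set E)) (convexHull ℝ (Subtype.val '' A)) := by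
  obtain ⟨l, l1, l2⟩ := hA
  obtain ⟨z1, z2⟩ := zero_set V l l1
  have : A = {i : V | l (hom V i) = 0} := Set.ext l2
  rw [this, ← z2]
  rintro ⟨x0, h0, h0'⟩
  have key : ∀ x, l (1, x) = l (1, 0) + l (0, x) := by
    intro x; rw [← map_add]; simp
  refine ⟨LinearMap.toContinuousLinearMap (-(l ∘ₗ LinearMap.inr ℝ ℝ E)), ?_⟩
  ext x
  simp only [Set.mem_ofPred_eq, LinearMap.coe_toContinuousLinearMap', LinearMap.neg_apply,
    LinearMap.comp_apply, LinearMap.inr_apply, neg_le_neg_iff]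
  refine and_congr_right fun hx => ⟨fun h y hy => ?_, fun h => ?_⟩
  · linarith [key x, key y, z1 y hy]
  · linarith [key x, key x0, z1 x hx, h x0 h0]

omit [FiniteDimensional ℝ E] in
lemma face_of_isExposed (V : Finset E) {F : Set E}
    (hF : IsExposed ℝ (convexHull ℝ (V : Set E)) F) :
    ∃ A : Set V, IsFace (hom V) A ∧ convexHull ℝ (Subtype.val '' A) = F := by
  rcases F.eq_empty_or_nonempty with rfl | hne
  · exact ⟨∅, ⟨LinearMap.fst ℝ ℝ E, by simp [hom], by simp [hom]⟩, by simp⟩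
  obtain ⟨m, rfl⟩ := hF hne
  obtain ⟨x0, h0, h1⟩ := hne
  let l : ℝ × E →ₗ[ℝ] ℝ := m x0 • LinearMap.fst ℝ ℝ E - m.toLinearMap ∘ₗ LinearMap.snd ℝ ℝ E
  have hl : ∀ x, l (1, x) = m x0 - m x := fun x => by simp [l]
  have l1 : ∀ i, 0 ≤ l (hom V i) := fun i => by
    rw [hom, hl]; exact sub_nonneg.2 (h1 _ (subset_convexHull _ _ i.2))
  refine ⟨{i | l (hom V i) = 0}, ⟨l, l1, fun _ => Iff.rfl⟩, ?_⟩
  rw [← (zero_set V l l1).2]
  ext x
  simp only [Set.mem_ofPred_eq, hl]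
  refine and_congr_right fun hx => ⟨fun h y hy => ?_, fun h => ?_⟩
  · linarith [h1 y hy]
  · linarith [h1 x hx, h x0 h0]

omit [FiniteDimensional ℝ E] in
lemma hull_subset_iff (V : Finset E) {A B : Set V} (hB : IsFace (hom V) B) :
    convexHull ℝ (Subtype.val '' A) ⊆ convexHull ℝ (Subtype.val '' B) ↔ A ⊆ B := by
  refine ⟨fun h i hi => ?_, fun h => convexHull_mono (Set.image_mono h)⟩
  obtain ⟨l, l1, l2⟩ := hB
  have : B = {i : V | l (hom V i) = 0} := Set.ext l2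
  have h1 := h (subset_convexHull _ _ ⟨i, hi, rfl⟩)
  rw [this, ← (zero_set V l l1).2] at h1
  exact (l2 i).2 h1.2

/-- The combinatorial face lattice is the lattice of exposed faces. -/
noncomputable def faceIso (V : Finset E) :
    FL (hom V) ≃o {F : Set E // IsExposed ℝ (convexHull ℝ (V : Set E)) F} :=
  RelIso.ofSurjective (OrderEmbedding.ofMapLEIff
    (fun A => ⟨convexHull ℝ (Subtype.val '' A.1), isExposed_of_face V A.2⟩)
    fun _ B => hull_subset_iff V B.2) fun F => by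
      obtain ⟨A, h1, h2⟩ := face_of_isExposed V F.2
      exact ⟨⟨A, h1⟩, Subtype.ext h2⟩

lemma faceRank_faceIso (V : Finset E) (A : FL (hom V)) :
    faceRank (faceIso V A).1 = rk (hom V) A.1 := (rk_hom V A.1).symm

end

end Pool.Agent.MP_492a05_co

end MrgPart2

-- ======== part 3: formerly Pool.Agent.MP_492a05_co.Ctx
section MrgPart3

/-! The combinatorial core: a thin poset agreeing with a strongly connected thin lattice outside
one rank. -/

open Finset

namespace Pool.Agent.MP_492a05_co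

/-- The poset `Q` agrees with the lattice `L` outside rank `R`. -/
structure Ctx (Q L : Type*) [PartialOrder Q] [BoundedOrder Q] [Lattice L] [BoundedOrder L] where
  σ : Q → ℤ
  ρ : L → ℤ
  R : ℤ
  f : Q → L
  g : L → Q
  thinQ : Thin σ
  thinL : Thin ρ
  conn : Conn ρ
  botQ : σ ⊥ + 2 ≤ R
  topQ : R + 2 ≤ σ ⊤
  botL : ρ ⊥ + 2 ≤ R
  topL : R + 2 ≤ ρ ⊤
  ρ_f : ∀ x, σ x ≠ R → ρ (f x) = σ x
  g_f : ∀ x, σ x ≠ R → g (f x) = x
  σ_g : ∀ F, ρ F ≠ R → σ (g F) = ρ F
  f_g : ∀ F, ρ F ≠ R → f (g F) = F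
  le_iff : ∀ x y, σ x ≠ R → σ y ≠ R → (x ≤ y ↔ f x ≤ f y)

namespace Ctx

variable {Q L : Type*} [PartialOrder Q] [BoundedOrder Q] [Lattice L] [BoundedOrder L]
  (C : Ctx Q L)

/-- The dual context. -/
def dual : Ctx Qᵒᵈ Lᵒᵈ where
  σ x := -C.σ (OrderDual.ofDual x)
  ρ x := -C.ρ (OrderDual.ofDual x)
  R := -C.R
  f := C.f
  g := C.g
  thinQ := C.thinQ.dual
  thinL := C.thinL.dual
  conn := C.conn.dual
  botQ := by have := C.topQ; simp only [OrderDual.ofDual_bot]; linarith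
  topQ := by have := C.botQ; simp only [OrderDual.ofDual_top]; linarith
  botL := by have := C.topL; simp only [OrderDual.ofDual_bot]; linarith
  topL := by have := C.botL; simp only [OrderDual.ofDual_top]; linarith
  ρ_f x h := congrArg Neg.neg (C.ρ_f x fun e => h (congrArg Neg.neg e))
  g_f x h := C.g_f x fun e => h (congrArg Neg.neg e)
  σ_g x h := congrArg Neg.neg (C.σ_g x fun e => h (congrArg Neg.neg e))
  f_g x h := C.f_g x fun e => h (congrArg Neg.neg e)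
  le_iff x y hx hy := C.le_iff y x (fun e => hy (congrArg Neg.neg e))
    (fun e => hx (congrArg Neg.neg e))

lemma g_le_g {F G : L} (hF : C.ρ F ≠ C.R) (hG : C.ρ G ≠ C.R) : C.g F ≤ C.g G ↔ F ≤ G := by
  rw [C.le_iff _ _ (by rwa [C.σ_g F hF]) (by rwa [C.σ_g G hG]), C.f_g F hF, C.f_g G hG]

lemma le_g {y : Q} {G : L} (hy : C.σ y ≠ C.R) (hG : C.ρ G ≠ C.R) : y ≤ C.g G ↔ C.f y ≤ G := by
  rw [C.le_iff _ _ hy (by rwa [C.σ_g G hG]), C.f_g G hG]

lemma g_le {y : Q} {G : L} (hy : C.σ y ≠ C.R) (hG : C.ρ G ≠ C.R) : C.g G ≤ y ↔ G ≤ C.f y := by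
  rw [C.le_iff _ _ (by rwa [C.σ_g G hG]) hy, C.f_g G hG]

lemma exists_upper {x : Q} (hx : C.σ x = C.R) : ∃ E : L, C.ρ E ≤ C.R ∧
    (∀ y, C.σ y ≠ C.R → y ≤ x → C.f y ≤ E) ∧
    (∀ E', (∀ y, C.σ y ≠ C.R → x ≤ y → E' ≤ C.f y) → E' ≤ E) := by
  obtain ⟨b, b1, -, b3⟩ := C.thinQ.exists_rank (le_top (a := x)) (k := C.R + 2) (by omega) C.topQ
  obtain ⟨c, c', hne, hc⟩ := C.thinQ.diamond x b (C.thinQ.lt_of_le b1 (by omega)) (by omega)
  obtain ⟨c1, c2⟩ := (hc c).2 (Or.inl rfl)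
  obtain ⟨c3, c4⟩ := (hc c').2 (Or.inr rfl)
  have r1 := C.thinQ.mono c1
  have r2 := C.thinQ.mono c2
  have r3 := C.thinQ.mono c3
  have r4 := C.thinQ.mono c4
  refine ⟨C.f c ⊓ C.f c', ?_, fun y hy hyx => le_inf ?_ ?_,
    fun E' hE' => le_inf (hE' c (by omega) c1.le) (hE' c' (by omega) c3.le)⟩
  · have : C.f c ⊓ C.f c' < C.f c := by
      refine inf_lt_left.2 fun h => hne ?_
      exact C.thinQ.eq_of_le ((C.le_iff c c' (by omega) (by omega)).2 h) (by omega)
    have h1 := C.thinL.mono this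
    have h2 := C.ρ_f c (by omega)
    omega
  · exact (C.le_iff y c hy (by omega)).1 (hyx.trans c1.le)
  · exact (C.le_iff y c' hy (by omega)).1 (hyx.trans c3.le)

lemma exists_weak {x : Q} (hx : C.σ x = C.R) : ∃ E : L, C.ρ E = C.R ∧
    (∀ y, C.σ y ≠ C.R → y ≤ x → C.f y ≤ E) ∧ (∀ y, C.σ y ≠ C.R → x ≤ y → E ≤ C.f y) := by
  obtain ⟨E, h1, h2, h3⟩ := C.exists_upper hx
  obtain ⟨E', h4, h5, -⟩ := C.dual.exists_upper (x := x) (congrArg Neg.neg hx)
  have h5' : ∀ y, C.σ y ≠ C.R → x ≤ y → OrderDual.ofDual E' ≤ C.f y :=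
    fun y hy hxy => h5 y (fun e => hy (neg_injective e)) hxy
  have h4' : C.R ≤ C.ρ (OrderDual.ofDual E') := neg_le_neg_iff.1 h4
  have h6 := h3 _ h5'
  have h7 := C.thinL.eq_of_le h6 (h1.trans h4')
  rw [h7] at h4' h5'
  exact ⟨E, le_antisymm h1 h4', h2, h5'⟩

lemma upper {x : Q} (hx : C.σ x = C.R) {E : L} (hE : C.ρ E = C.R)
    (h : ∀ y, C.σ y ≠ C.R → x ≤ y → E ≤ C.f y) (y : Q) (hy : C.σ y ≠ C.R) (hEy : E ≤ C.f y) :
    x ≤ y := by
  have hry := C.ρ_f y hy
  have hle := C.thinL.le hEy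
  obtain ⟨H, H1, H2, H3⟩ := C.thinL.exists_rank hEy (k := C.R + 1) (by omega) (by omega)
  obtain ⟨c, c1, -, c3⟩ := C.thinQ.exists_rank (le_top (a := x)) (k := C.R + 1) (by omega)
    (by have := C.topQ; omega)
  have key := C.thinL.atoms_conn C.conn E (fun H => x ≤ C.g H) ⊤
    (fun H H' T a1 a2 r1 r2 l1 l2 r3 _ hH => by
      have s1 := C.σ_g T (by omega)
      have x1 : x ≤ C.g T := hH.trans ((C.g_le_g (by omega) (by omega)).2 l1)
      obtain ⟨d, d', hne, hd⟩ := C.thinQ.diamond x (C.g T) (C.thinQ.lt_of_le x1 (by omega))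
        (by omega)
      obtain ⟨e, e', -, he⟩ := C.thinL.diamond E T (C.thinL.lt_of_le (a1.trans l1) (by omega))
        (by omega)
      have hmid : ∀ z, x < z → z < C.g T → C.σ z ≠ C.R ∧ (C.f z = e ∨ C.f z = e') := by
        intro z z1 z2
        have t1 := C.thinQ.mono z1
        have t2 := C.thinQ.mono z2
        have t3 := C.ρ_f z (by omega)
        refine ⟨by omega, (he _).1 ⟨C.thinL.lt_of_le (h z (by omega) z1.le) (by omega),
          C.thinL.lt_of_le ((C.le_g (by omega) (by omega)).1 z2.le) (by omega)⟩⟩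
      obtain ⟨d1, d2⟩ := (hd d).2 (Or.inl rfl)
      obtain ⟨d3, d4⟩ := (hd d').2 (Or.inr rfl)
      obtain ⟨m1, m2⟩ := hmid d d1 d2
      obtain ⟨m3, m4⟩ := hmid d' d3 d4
      have hfne : C.f d ≠ C.f d' := fun e => hne (by rw [← C.g_f d m1, e, C.g_f d' m3])
      have m5 := (he H').1 ⟨C.thinL.lt_of_le a2 (by omega), C.thinL.lt_of_le l2 (by omega)⟩
      have : H' = C.f d ∨ H' = C.f d' := by grind
      rcases this with rfl | rfl
      · rw [C.g_f d m1]; exact d1.le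
      · rw [C.g_f d' m3]; exact d3.le)
    (C.f c) H (h c (by omega) c1) H1 (by rw [C.ρ_f c (by omega)]; omega) (by omega) le_top le_top
    (by rw [C.g_f c (by omega)]; exact c1)
  exact key.trans ((C.g_le hy (by omega)).2 H2)

/-- `e` assigns to each element of rank `R` of `Q` the element of `L` which it copies. -/
def Copies (e : Q → L) : Prop := ∀ x, C.σ x = C.R → C.ρ (e x) = C.R ∧
  (∀ y, C.σ y ≠ C.R → (y ≤ x ↔ C.f y ≤ e x)) ∧ (∀ y, C.σ y ≠ C.R → (x ≤ y ↔ e x ≤ C.f y))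

lemma exists_copies : ∃ e, C.Copies e := by
  have : ∀ x, ∃ E, C.σ x = C.R → C.ρ E = C.R ∧
      (∀ y, C.σ y ≠ C.R → (y ≤ x ↔ C.f y ≤ E)) ∧ (∀ y, C.σ y ≠ C.R → (x ≤ y ↔ E ≤ C.f y)) := by
    intro x
    by_cases hx : C.σ x = C.R
    · obtain ⟨E, h1, h2, h3⟩ := C.exists_weak hx
      refine ⟨E, fun _ => ⟨h1, fun y hy => ⟨h2 y hy, ?_⟩, fun y hy =>
        ⟨h3 y hy, C.upper hx h1 h3 y hy⟩⟩⟩
      exact C.dual.upper (x := x) (E := E) (congrArg Neg.neg hx) (congrArg Neg.neg h1)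
        (fun y hy => h2 y fun e => hy (congrArg Neg.neg e)) y fun e => hy (neg_injective e)
    · exact ⟨⊥, fun h => absurd h hx⟩
  choose e he using this
  exact ⟨e, he⟩

lemma Copies.dual {e : Q → L} (he : C.Copies e) : C.dual.Copies e := by
  intro x hx
  obtain ⟨h1, h2, h3⟩ := he x (neg_injective hx)
  exact ⟨congrArg Neg.neg h1, fun y hy => h3 y fun e => hy (congrArg Neg.neg e),
    fun y hy => h2 y fun e => hy (congrArg Neg.neg e)⟩

/-- Multiplicity of an element of `L`. -/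
noncomputable def mult (e : Q → L) (E : L) : ℕ := {x | C.σ x = C.R ∧ e x = E}.ncard

lemma mult_dual (e : Q → L) (E : L) : C.dual.mult e E = C.mult e E := by
  unfold mult
  congr 1
  ext x
  exact and_congr_left' neg_inj

variable [Finite Q]

lemma mult_add {e : Q → L} (he : C.Copies e) {G H E E' : L} (hG : C.ρ G + 1 = C.R)
    (hH : C.ρ H = C.R + 1) (h1 : G ≤ E) (h2 : E ≤ H) (h3 : G ≤ E') (h4 : E' ≤ H)
    (r1 : C.ρ E = C.R) (r2 : C.ρ E' = C.R) (hne : E ≠ E') : C.mult e E + C.mult e E' = 2 := by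
  have s1 := C.σ_g G (by omega)
  have s2 := C.σ_g H (by omega)
  obtain ⟨c, c', hc, hd⟩ := C.thinQ.diamond (C.g G) (C.g H)
    (C.thinQ.lt_of_le ((C.g_le_g (by omega) (by omega)).2 (h1.trans h2)) (by omega)) (by omega)
  obtain ⟨d, d', -, hdd⟩ := C.thinL.diamond G H (C.thinL.lt_of_le (h1.trans h2) (by omega))
    (by omega)
  have m1 := (hdd E).1 ⟨C.thinL.lt_of_le h1 (by omega), C.thinL.lt_of_le h2 (by omega)⟩
  have m2 := (hdd E').1 ⟨C.thinL.lt_of_le h3 (by omega), C.thinL.lt_of_le h4 (by omega)⟩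
  unfold mult
  rw [← Set.ncard_union_eq (Set.disjoint_left.2 fun x a b => hne (a.2.symm.trans b.2)),
    ← Set.ncard_pair hc]
  congr 1
  ext x
  simp only [Set.mem_union, Set.mem_ofPred_eq, Set.mem_insert_iff, Set.mem_singleton_iff, ← hd]
  constructor
  · intro h
    have hx : C.σ x = C.R := by rcases h with h | h <;> exact h.1
    obtain ⟨-, e2, e3⟩ := he x hx
    have : G ≤ e x ∧ e x ≤ H := by
      rcases h with h | h <;> rw [h.2]
      · exact ⟨h1, h2⟩
      · exact ⟨h3, h4⟩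
    refine ⟨C.thinQ.lt_of_le ((e2 _ (by omega)).2 ?_) (by omega),
      C.thinQ.lt_of_le ((e3 _ (by omega)).2 ?_) (by omega)⟩
    · rw [C.f_g G (by omega)]; exact this.1
    · rw [C.f_g H (by omega)]; exact this.2
  · rintro ⟨x1, x2⟩
    have t1 := C.thinQ.mono x1
    have t2 := C.thinQ.mono x2
    have hx : C.σ x = C.R := by omega
    obtain ⟨e1, e2, e3⟩ := he x hx
    have u1 := (e2 _ (by omega)).1 x1.le
    have u2 := (e3 _ (by omega)).1 x2.le
    rw [C.f_g G (by omega)] at u1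
    rw [C.f_g H (by omega)] at u2
    have m3 := (hdd (e x)).1 ⟨C.thinL.lt_of_le u1 (by omega), C.thinL.lt_of_le u2 (by omega)⟩
    grind

end Ctx

end Pool.Agent.MP_492a05_co

end MrgPart3

-- ======== part 4: formerly Pool.Agent.MP_492a05_co.Mult
section MrgPart4

/-! All multiplicities equal one. -/

open Finset

namespace Pool.Agent.MP_492a05_co

namespace Ctx

variable {Q L : Type*} [PartialOrder Q] [BoundedOrder Q] [Lattice L] [BoundedOrder L]
  (C : Ctx Q L)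

lemma other {G H E : L} (hG : C.ρ G + 1 = C.R) (hH : C.ρ H = C.R + 1) (h1 : G ≤ E) (h2 : E ≤ H)
    (r1 : C.ρ E = C.R) : ∃ E', G ≤ E' ∧ E' ≤ H ∧ C.ρ E' = C.R ∧ E ≠ E' := by
  obtain ⟨d, d', hne, hdd⟩ := C.thinL.diamond G H (C.thinL.lt_of_le (h1.trans h2) (by omega))
    (by omega)
  obtain ⟨d1, d2⟩ := (hdd d).2 (Or.inl rfl)
  obtain ⟨d3, d4⟩ := (hdd d').2 (Or.inr rfl)
  have t1 := C.thinL.mono d1
  have t2 := C.thinL.mono d2
  have t3 := C.thinL.mono d3
  have t4 := C.thinL.mono d4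
  by_cases h : E = d
  · exact ⟨d', d3.le, d4.le, by omega, h ▸ hne⟩
  · exact ⟨d, d1.le, d2.le, by omega, h⟩

variable [Finite Q]

lemma at_vertex {e : Q → L} (he : C.Copies e) {v T E E' : L} (hv : C.ρ v + 1 = C.R)
    (h1 : v ≤ E) (h2 : E ≤ T) (h3 : v ≤ E') (h4 : E' ≤ T) (r1 : C.ρ E = C.R) (r2 : C.ρ E' = C.R)
    (hm : C.mult e E ≠ 1) : C.mult e E' ≠ 1 := by
  refine C.thinL.atoms_conn C.conn v (fun E => C.mult e E ≠ 1) T
    (fun H H' U a1 a2 s1 s2 l1 l2 s3 _ hH => ?_) E E' h1 h3 (by omega) (by omega) h2 h4 hm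
  by_cases h : H = H'
  · exact h ▸ hH
  · have := C.mult_add he hv (by omega) a1 l1 a2 l2 (by omega) (by omega) h
    omega

lemma all_ne_one {e : Q → L} (he : C.Copies e) {K T E E' : L} (hK : C.ρ K + 2 = C.R)
    (h1 : K ≤ E) (h2 : E ≤ T) (h3 : K ≤ E') (h4 : E' ≤ T) (r1 : C.ρ E = C.R) (r2 : C.ρ E' = C.R)
    (hm : C.mult e E ≠ 1) : C.mult e E' ≠ 1 := by
  obtain ⟨v, v1, v2, v3⟩ := C.thinL.exists_rank h1 (k := C.R - 1) (by omega) (by omega)
  obtain ⟨w, w1, w2, w3⟩ := C.thinL.exists_rank h3 (k := C.R - 1) (by omega) (by omega)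
  refine C.thinL.atoms_conn C.conn K
    (fun v => ∀ E, v ≤ E → E ≤ T → C.ρ E = C.R → C.mult e E ≠ 1) T
    (fun H H' U a1 a2 s1 s2 l1 l2 s3 l3 hH F f1 f2 f3 => ?_) v w v1 w1 (by omega) (by omega)
    (v2.trans h2) (w2.trans h4)
    (fun F f1 f2 f3 => C.at_vertex he (by omega) v2 h2 f1 f2 r1 f3 hm) E' w2 h4 r2
  exact C.at_vertex he (by omega) l2 l3 f1 f2 (by omega) f3 (hH U l1 l3 (by omega))

lemma exists_two {e : Q → L} (he : C.Copies e) {K T v H : L}
    (hall : ∀ E, K ≤ E → E ≤ T → C.ρ E = C.R → C.mult e E ≠ 1)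
    (hv : C.ρ v + 1 = C.R) (hH : C.ρ H = C.R + 1) (h1 : K ≤ v) (h2 : v ≤ H) (h3 : H ≤ T) :
    ∃ E E', v ≤ E ∧ E ≤ H ∧ v ≤ E' ∧ E' ≤ H ∧ C.ρ E = C.R ∧ C.ρ E' = C.R ∧
      C.mult e E = 2 ∧ C.mult e E' = 0 := by
  obtain ⟨E, e1, e2, e3⟩ := C.thinL.exists_rank h2 (k := C.R) (by omega) (by omega)
  obtain ⟨E', e4, e5, e6, e7⟩ := C.other hv hH e1 e2 e3
  have m1 := C.mult_add he hv hH e1 e2 e4 e5 e3 e6 e7
  have m2 := hall E (h1.trans e1) (e2.trans h3) e3
  by_cases h : C.mult e E = 2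
  · exact ⟨E, E', e1, e2, e4, e5, e3, e6, h, by omega⟩
  · exact ⟨E', E, e4, e5, e1, e2, e6, e3, by omega, by omega⟩

lemma face_count [Finite L] {e : Q → L} (he : C.Copies e) {K T : L} (hK : C.ρ K + 2 = C.R)
    (hT : C.ρ T = C.R + 2) (hall : ∀ E, K ≤ E → E ≤ T → C.ρ E = C.R → C.mult e E ≠ 1) :
    {H | K ≤ H ∧ H ≤ T ∧ C.ρ H = C.R + 1}.ncard ≤
      {E | K ≤ E ∧ E ≤ T ∧ C.ρ E = C.R ∧ C.mult e E = 2}.ncard := by
  classical
  have := Fintype.ofFinite L
  rw [Set.ncard_eq_toFinset_card', Set.ncard_eq_toFinset_card']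
  refine Nat.le_of_mul_le_mul_right (Finset.card_mul_le_card_mul (fun H E => E ≤ H)
    (fun H hH => ?_) (fun E hE => ?_)) (show 0 < 2 by norm_num)
  · simp only [Set.mem_toFinset, Set.mem_ofPred_eq] at hH
    obtain ⟨H1, H2, H3⟩ := hH
    obtain ⟨v, v1, v2, v3⟩ := C.thinL.exists_rank H1 (k := C.R - 1) (by omega) (by omega)
    obtain ⟨E, E', a1, a2, a3, a4, a5, a6, a7, a8⟩ := C.exists_two he hall (by omega) H3 v1 v2 H2
    obtain ⟨d, d', hne, hdd⟩ := C.thinL.diamond K E' (C.thinL.lt_of_le (v1.trans a3) (by omega))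
      (by omega)
    obtain ⟨w, w1, w2, w3⟩ : ∃ w, K < w ∧ w < E' ∧ w ≠ v := by
      by_cases h : d = v
      · exact ⟨d', ((hdd d').2 (Or.inr rfl)).1, ((hdd d').2 (Or.inr rfl)).2, h ▸ hne.symm⟩
      · exact ⟨d, ((hdd d).2 (Or.inl rfl)).1, ((hdd d).2 (Or.inl rfl)).2, h⟩
    have t1 := C.thinL.mono w1
    have t2 := C.thinL.mono w2
    obtain ⟨F, -, b1, b2, -, -, b5, -, b7, -⟩ :=
      C.exists_two he hall (v := w) (by omega) H3 w1.le (w2.le.trans a4) H2
    have hFE : E ≠ F := by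
      rintro rfl
      have s1 : v < v ⊔ w := left_lt_sup.2 fun h => w3 (C.thinL.eq_of_le h (by omega))
      have s2 := C.thinL.mono s1
      have s3 := C.thinL.eq_of_le (sup_le a1 b1) (by omega)
      have s4 := C.thinL.eq_of_le (sup_le a3 w2.le) (by omega)
      rw [← s3, s4] at a7
      omega
    refine Finset.one_lt_card.2 ⟨E, ?_, F, ?_, hFE⟩
    · simpa using ⟨⟨v1.trans a1, a2.trans H2, a5, a7⟩, a2⟩
    · simpa using ⟨⟨w1.le.trans b1, b2.trans H2, b5, b7⟩, b2⟩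
  · simp only [Set.mem_toFinset, Set.mem_ofPred_eq] at hE
    obtain ⟨E1, E2, E3, -⟩ := hE
    obtain ⟨d, d', -, hdd⟩ := C.thinL.diamond E T (C.thinL.lt_of_le E2 (by omega)) (by omega)
    refine le_trans (Finset.card_le_card (t := {d, d'}) fun H hH => ?_) Finset.card_le_two
    simp only [Finset.mem_bipartiteBelow, Set.mem_toFinset, Set.mem_ofPred_eq] at hH
    simpa using (hdd H).1 ⟨C.thinL.lt_of_le hH.2 (by omega), C.thinL.lt_of_le hH.1.2.1 (by omega)⟩

omit [Finite Q] in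
lemma ncard_level {K T : L} (hK : C.ρ K ≠ C.R) (hT : C.ρ T ≠ C.R) {k : ℤ} (hk : k ≠ C.R) :
    {z | C.g K ≤ z ∧ z ≤ C.g T ∧ C.σ z = k}.ncard = {H | K ≤ H ∧ H ≤ T ∧ C.ρ H = k}.ncard := by
  refine Set.ncard_congr (fun z _ => C.f z) (fun z hz => ?_) (fun a b ha hb h => ?_)
    (fun H hH => ?_)
  · obtain ⟨z1, z2, z3⟩ := hz
    exact ⟨(C.g_le (by omega) hK).1 z1, (C.le_g (by omega) hT).1 z2, by rw [C.ρ_f z (by omega), z3]⟩
  · rw [← C.g_f a (by have := ha.2.2; omega), h, C.g_f b (by have := hb.2.2; omega)]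
  · obtain ⟨z1, z2, z3⟩ := hH
    exact ⟨C.g H, ⟨(C.g_le_g hK (by omega)).2 z1, (C.g_le_g (by omega) hT).2 z2,
      by rw [C.σ_g H (by omega), z3]⟩, C.f_g H (by omega)⟩

lemma mult_eq_one [Finite L] {e : Q → L} (he : C.Copies e)
    (euler : ∀ a b : Q, a ≤ b → C.σ b = C.σ a + 4 →
      2 + {z | a ≤ z ∧ z ≤ b ∧ C.σ z = C.σ a + 2}.ncard =
        {z | a ≤ z ∧ z ≤ b ∧ C.σ z = C.σ a + 1}.ncard +
          {z | a ≤ z ∧ z ≤ b ∧ C.σ z = C.σ a + 3}.ncard)
    {E : L} (hE : C.ρ E = C.R) : C.mult e E = 1 := by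
  classical
  by_contra hm
  obtain ⟨K, -, K2, K3⟩ := C.thinL.exists_rank (bot_le (a := E)) (k := C.R - 2)
    (by have := C.botL; omega) (by omega)
  obtain ⟨T, T1, -, T3⟩ := C.thinL.exists_rank (le_top (a := E)) (k := C.R + 2) (by omega) C.topL
  have hall : ∀ E', K ≤ E' → E' ≤ T → C.ρ E' = C.R → C.mult e E' ≠ 1 :=
    fun E' a b c => C.all_ne_one he (by omega) K2 T1 a b hE c hm
  have c1 := C.face_count he (by omega) T3 hall
  have c2 := C.dual.face_count (Copies.dual C he) (K := T) (T := K)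
    (show -C.ρ T + 2 = -C.R by omega) (show -C.ρ K = -C.R + 2 by omega)
    (fun E' a b c => by rw [C.mult_dual]; exact hall E' b a (neg_injective c))
  have c3 : {H | K ≤ H ∧ H ≤ T ∧ C.ρ H = C.R - 1}.ncard ≤
      {E | K ≤ E ∧ E ≤ T ∧ C.ρ E = C.R ∧ C.mult e E = 2}.ncard := by
    have c2' : {H : L | H ≤ T ∧ K ≤ H ∧ -C.ρ H = -C.R + 1}.ncard ≤
        {H : L | H ≤ T ∧ K ≤ H ∧ -C.ρ H = -C.R ∧ C.dual.mult e H = 2}.ncard := c2
    convert c2' using 2
    · ext H
      constructor <;> rintro ⟨a, b, c⟩ <;> exact ⟨b, a, by omega⟩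
    · ext H
      simp only [Set.mem_ofPred_eq, C.mult_dual]
      constructor <;> rintro ⟨a, b, c, d⟩ <;> exact ⟨b, a, by omega, d⟩
  have s1 := C.σ_g K (by omega)
  have s2 := C.σ_g T (by omega)
  have c4 := euler (C.g K) (C.g T) ((C.g_le_g (by omega) (by omega)).2 (K2.trans T1)) (by omega)
  rw [show C.σ (C.g K) + 2 = C.R by omega, show C.σ (C.g K) + 1 = C.R - 1 by omega,
    show C.σ (C.g K) + 3 = C.R + 1 by omega,
    C.ncard_level (k := C.R - 1) (by omega) (by omega) (by omega),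
    C.ncard_level (k := C.R + 1) (by omega) (by omega) (by omega)] at c4
  have c5 : 2 * {E | K ≤ E ∧ E ≤ T ∧ C.ρ E = C.R ∧ C.mult e E = 2}.ncard ≤
      {z | C.g K ≤ z ∧ z ≤ C.g T ∧ C.σ z = C.R}.ncard := by
    have := Fintype.ofFinite L
    have := Fintype.ofFinite Q
    rw [Set.ncard_eq_toFinset_card', Set.ncard_eq_toFinset_card', mul_comm, ← one_mul
      (Set.toFinset {z | C.g K ≤ z ∧ z ≤ C.g T ∧ C.σ z = C.R}).card, mul_comm 1]
    refine Finset.card_mul_le_card_mul (fun F z => e z = F) (fun F hF => ?_) (fun z _ => ?_)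
    · simp only [Set.mem_toFinset, Set.mem_ofPred_eq] at hF
      obtain ⟨F1, F2, F3, F4⟩ := hF
      rw [← F4, mult, Set.ncard_eq_toFinset_card']
      refine Finset.card_le_card fun z hz => ?_
      simp only [Set.mem_toFinset, Set.mem_ofPred_eq] at hz
      obtain ⟨-, e2, e3⟩ := he z hz.1
      simp only [Finset.mem_bipartiteAbove, Set.mem_toFinset, Set.mem_ofPred_eq]
      refine ⟨⟨(e2 _ (by omega)).2 ?_, (e3 _ (by omega)).2 ?_, hz.1⟩, hz.2⟩
      · rw [C.f_g K (by omega), hz.2]; exact F1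
      · rw [C.f_g T (by omega), hz.2]; exact F2
    · refine Finset.card_le_one.2 fun a ha b hb => ?_
      simp only [Finset.mem_bipartiteBelow] at ha hb
      exact ha.2.symm.trans hb.2
  omega

theorem exists_orderIso [Finite L]
    (euler : ∀ a b : Q, a ≤ b → C.σ b = C.σ a + 4 →
      2 + {z | a ≤ z ∧ z ≤ b ∧ C.σ z = C.σ a + 2}.ncard =
        {z | a ≤ z ∧ z ≤ b ∧ C.σ z = C.σ a + 1}.ncard +
          {z | a ≤ z ∧ z ≤ b ∧ C.σ z = C.σ a + 3}.ncard) :
    ∃ ψ : Q ≃o L, ∀ x, C.σ x ≠ C.R → ψ x = C.f x := by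
  classical
  obtain ⟨e, he⟩ := C.exists_copies
  have hinj : ∀ x y, C.σ x = C.R → C.σ y = C.R → e x = e y → x = y := by
    intro x y hx hy h
    obtain ⟨z, hz⟩ := Set.ncard_eq_one.1 (C.mult_eq_one he euler (he x hx).1)
    have h1 : x ∈ ({z} : Set Q) := hz ▸ ⟨hx, rfl⟩
    have h2 : y ∈ ({z} : Set Q) := hz ▸ ⟨hy, h.symm⟩
    exact h1.trans h2.symm
  let ψ : Q → L := fun x => if C.σ x = C.R then e x else C.f x
  have hle : ∀ x y, ψ x ≤ ψ y ↔ x ≤ y := by
    intro x y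
    by_cases hx : C.σ x = C.R <;> by_cases hy : C.σ y = C.R <;> simp only [ψ, hx, hy, if_true,
      if_false]
    · constructor
      · intro h
        exact (hinj x y hx hy (C.thinL.eq_of_le h (by rw [(he x hx).1, (he y hy).1]))).le
      · intro h
        rw [C.thinQ.eq_of_le h (by omega)]
    · exact ((he x hx).2.2 y hy).symm
    · exact ((he y hy).2.1 x hx).symm
    · exact (C.le_iff x y hx hy).symm
  have hsurj : Function.Surjective ψ := by
    intro F
    by_cases hF : C.ρ F = C.R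
    · obtain ⟨z, hz⟩ := Set.ncard_eq_one.1 (C.mult_eq_one he euler hF)
      have h1 : z ∈ {x | C.σ x = C.R ∧ e x = F} := hz ▸ rfl
      exact ⟨z, by simp only [ψ, h1.1, if_true, h1.2]⟩
    · exact ⟨C.g F, by simp only [ψ, C.σ_g F hF, hF, if_false, C.f_g F hF]⟩
  refine ⟨RelIso.ofSurjective (OrderEmbedding.ofMapLEIff ψ hle) hsurj, fun x hx => ?_⟩
  simp [ψ, hx]

end Ctx

end Pool.Agent.MP_492a05_co

end MrgPart4

-- ======== part 5: formerly Pool.Agent.MP_492a05_co.Final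
section MrgPart5

/-! Eulerian posets and the final theorem. -/

namespace Pool.Agent.MP_492a05_co

section
variable {Q : Type*} [Finite Q] [PartialOrder Q] [GradeMinOrder ℕ Q]
  (hQ : ∀ x y : Q, x < y → {z ∈ Set.Icc x y | Even (grade ℕ z)}.ncard =
    {z ∈ Set.Icc x y | Odd (grade ℕ z)}.ncard)
include hQ

omit [Finite Q] in
lemma euler_parity {a b : Q} (h : a < b) :
    {z | a ≤ z ∧ z ≤ b ∧ grade ℕ z % 2 = grade ℕ a % 2}.ncard =
      {z | a ≤ z ∧ z ≤ b ∧ grade ℕ z % 2 ≠ grade ℕ a % 2}.ncard := by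
  have := hQ a b h
  rcases Nat.mod_two_eq_zero_or_one (grade ℕ a) with e | e
  · convert this using 2 <;> ext z <;>
      simp only [Set.mem_ofPred_eq, Set.mem_Icc, and_assoc, e, Nat.even_iff, Nat.odd_iff]
    refine and_congr_right fun _ => and_congr_right fun _ => by omega
  · convert this.symm using 2 <;> ext z <;>
      simp only [Set.mem_ofPred_eq, Set.mem_Icc, and_assoc, e, Nat.even_iff, Nat.odd_iff]
    refine and_congr_right fun _ => and_congr_right fun _ => by omega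

omit hQ [Finite Q] in
lemma grade_cases {a z : Q} (h : a ≤ z) : a = z ∨ grade ℕ a < grade ℕ z :=
  h.eq_or_lt.imp id fun h => grade_strictMono h

omit [Finite Q] in
lemma thin_of_euler : Thin (fun x : Q => ((grade ℕ x : ℕ) : ℤ)) where
  mono := fun a b h => by simpa using grade_strictMono (𝕆 := ℕ) h
  mid := fun a b h hr => by
    refine exists_lt_lt_of_not_covBy h fun hc => ?_
    have := Nat.covBy_iff_add_one_eq.1 (hc.grade ℕ)
    omega
  diamond := fun a b h hr => by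
    have h1 := euler_parity hQ h
    have h2 : {z | a ≤ z ∧ z ≤ b ∧ grade ℕ z % 2 = grade ℕ a % 2} = {a, b} := by
      ext z
      simp only [Set.mem_ofPred_eq, Set.mem_insert_iff, Set.mem_singleton_iff]
      constructor
      · rintro ⟨z1, z2, z3⟩
        rcases grade_cases z1 with e | e
        · exact Or.inl e.symm
        rcases grade_cases z2 with e' | e'
        · exact Or.inr e'
        omega
      · rintro (rfl | rfl)
        · exact ⟨le_rfl, h.le, rfl⟩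
        · exact ⟨h.le, le_rfl, by omega⟩
    rw [h2, Set.ncard_pair h.ne] at h1
    obtain ⟨c, c', hne, hc⟩ := Set.ncard_eq_two.1 h1.symm
    refine ⟨c, c', hne, fun e => ?_⟩
    refine Iff.trans ?_ (Set.ext_iff.1 hc e)
    constructor
    · rintro ⟨e1, e2⟩
      have := grade_strictMono (𝕆 := ℕ) e1
      have := grade_strictMono (𝕆 := ℕ) e2
      exact ⟨e1.le, e2.le, by omega⟩
    · rintro ⟨e1, e2, e3⟩
      refine ⟨lt_of_le_of_ne e1 ?_, lt_of_le_of_ne e2 ?_⟩
      · rintro rfl; exact e3 rfl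
      · rintro rfl; omega

lemma euler_four (a b : Q) (h : a ≤ b) (hr : ((grade ℕ b : ℕ) : ℤ) = (grade ℕ a : ℕ) + 4) :
    2 + {z | a ≤ z ∧ z ≤ b ∧ ((grade ℕ z : ℕ) : ℤ) = (grade ℕ a : ℕ) + 2}.ncard =
      {z | a ≤ z ∧ z ≤ b ∧ ((grade ℕ z : ℕ) : ℤ) = (grade ℕ a : ℕ) + 1}.ncard +
        {z | a ≤ z ∧ z ≤ b ∧ ((grade ℕ z : ℕ) : ℤ) = (grade ℕ a : ℕ) + 3}.ncard := by
  have hlt : a < b := lt_of_le_of_ne h (by rintro rfl; omega)
  rw [← Set.ncard_pair hlt.ne, ← Set.ncard_union_eq, ← Set.ncard_union_eq]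
  · convert euler_parity hQ hlt using 2
    · ext z
      simp only [Set.mem_union, Set.mem_ofPred_eq, Set.mem_insert_iff, Set.mem_singleton_iff]
      constructor
      · rintro ((rfl | rfl) | ⟨z1, z2, z3⟩)
        · exact ⟨le_rfl, h, rfl⟩
        · exact ⟨h, le_rfl, by omega⟩
        · exact ⟨z1, z2, by omega⟩
      · rintro ⟨z1, z2, z3⟩
        rcases grade_cases z1 with e | e
        · exact Or.inl (Or.inl e.symm)
        rcases grade_cases z2 with e' | e'
        · exact Or.inl (Or.inr e')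
        exact Or.inr ⟨z1, z2, by omega⟩
    · ext z
      simp only [Set.mem_union, Set.mem_ofPred_eq]
      constructor
      · rintro (⟨z1, z2, z3⟩ | ⟨z1, z2, z3⟩) <;> exact ⟨z1, z2, by omega⟩
      · rintro ⟨z1, z2, z3⟩
        have e1 := (grade_strictMono (𝕆 := ℕ)).monotone z1
        have e2 := (grade_strictMono (𝕆 := ℕ)).monotone z2
        by_cases e : ((grade ℕ z : ℕ) : ℤ) = (grade ℕ a : ℕ) + 1
        · exact Or.inl ⟨z1, z2, e⟩
        · exact Or.inr ⟨z1, z2, by omega⟩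
  · exact Set.disjoint_left.2 fun z h1 h2 => by have := h1.2.2; have := h2.2.2; omega
  · refine Set.disjoint_left.2 fun z h1 h2 => ?_
    have := h2.2.2
    rcases h1 with rfl | rfl <;> omega

end

theorem determined {E : Type*} [NormedAddCommGroup E] [NormedSpace ℝ E] [FiniteDimensional ℝ E]
    (V : Finset E) (d r : ℕ)
    (hd : Module.finrank ℝ (vectorSpan ℝ (convexHull ℝ (V : Set E))) = d)
    (hr1 : 1 ≤ r) (hr2 : r + 2 ≤ d)
    (Q : Type*) [Finite Q] [PartialOrder Q] [BoundedOrder Q] [GradeMinOrder ℕ Q]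
    (hQ : ∀ x y : Q, x < y → {z ∈ Set.Icc x y | Even (grade ℕ z)}.ncard =
      {z ∈ Set.Icc x y | Odd (grade ℕ z)}.ncard)
    (φ : {x : Q // grade ℕ x ≠ r + 1} ≃o
      {F : Set E // IsExposed ℝ (convexHull ℝ (V : Set E)) F ∧ faceRank F ≠ r + 1})
    (hφ : ∀ x, faceRank (φ x).1 = grade ℕ x.1) :
    ∃ ψ : Q ≃o {F : Set E // IsExposed ℝ (convexHull ℝ (V : Set E)) F},
      ∀ (x : Q) (h : grade ℕ x ≠ r + 1), (ψ x).1 = (φ ⟨x, h⟩).1 := by
  classical
  let I := faceIso V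
  have hI : ∀ A, faceRank (I A).1 = rk (hom V) A.1 := faceRank_faceIso V
  let f : Q → FL (hom V) := fun x =>
    if h : grade ℕ x ≠ r + 1 then I.symm ⟨(φ ⟨x, h⟩).1, (φ ⟨x, h⟩).2.1⟩ else ⊥
  let g : FL (hom V) → Q := fun A =>
    if h : rk (hom V) A.1 ≠ r + 1 then (φ.symm ⟨(I A).1, (I A).2, by rwa [hI]⟩).1 else ⊥
  have hf : ∀ x (h : grade ℕ x ≠ r + 1), (I (f x)).1 = (φ ⟨x, h⟩).1 := by
    intro x h; simp only [f, dif_pos h, OrderIso.apply_symm_apply]
  have hρf : ∀ x (h : grade ℕ x ≠ r + 1), rk (hom V) (f x).1 = grade ℕ x := by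
    intro x h; rw [← hI, hf x h, hφ]
  have hg : ∀ A (h : rk (hom V) A.1 ≠ r + 1),
      ∃ h' : grade ℕ (g A) ≠ r + 1, (φ ⟨g A, h'⟩).1 = (I A).1 := by
    intro A h
    simp only [g, dif_pos h]
    exact ⟨(φ.symm _).2, by simp⟩
  have hfg : ∀ A (h : rk (hom V) A.1 ≠ r + 1), f (g A) = A := by
    intro A h
    obtain ⟨h', e⟩ := hg A h
    exact I.injective (Subtype.ext ((hf _ h').trans e))
  have hσg : ∀ A (h : rk (hom V) A.1 ≠ r + 1), grade ℕ (g A) = rk (hom V) A.1 := by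
    intro A h
    obtain ⟨h', -⟩ := hg A h
    rw [← hρf _ h', hfg A h]
  have hle : ∀ x y (hx : grade ℕ x ≠ r + 1) (hy : grade ℕ y ≠ r + 1), x ≤ y ↔ f x ≤ f y := by
    intro x y hx hy
    rw [← I.le_iff_le, ← Subtype.coe_le_coe, hf x hx, hf y hy, Subtype.coe_le_coe, φ.le_iff_le]
    rfl
  have htop : rk (hom V) (⊤ : FL (hom V)).1 = d + 1 := by
    have e1 : (I ⊤).1 = convexHull ℝ (V : Set E) :=
      Set.Subset.antisymm (I ⊤).2.subset (by
        have := I.le_iff_le.2 (le_top (a := I.symm ⟨_, IsExposed.refl _⟩))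
        rw [OrderIso.apply_symm_apply] at this
        exact this)
    rw [← hI, e1, faceRank, if_neg, hd]
    intro e
    rw [e, vectorSpan_empty, finrank_bot] at hd
    omega
  have hbot : rk (hom V) (⊥ : FL (hom V)).1 = 0 := by
    have e1 : (I ⊥).1 = ∅ := Set.subset_eq_empty (by
        have := I.le_iff_le.2 (bot_le (a := I.symm ⟨_, isExposed_empty⟩))
        rw [OrderIso.apply_symm_apply] at this
        exact this) rfl
    rw [← hI, e1, faceRank, if_pos rfl]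
  let C : Ctx Q (FL (hom V)) :=
    { σ := fun x => (grade ℕ x : ℕ)
      ρ := fun A => rk (hom V) A.1
      R := r + 1
      f := f
      g := g
      thinQ := thin_of_euler hQ
      thinL := FL.thin
      conn := FL.conn
      botQ := by simp; omega
      topQ := by
        have e1 := hσg ⊤ (by omega)
        have e2 := (grade_strictMono (𝕆 := ℕ)).monotone (le_top (a := g ⊤))
        omega
      botL := by omega
      topL := by omega
      ρ_f := fun x h => by rw [hρf x (by omega)]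
      g_f := fun x h => by
        have h1 : grade ℕ x ≠ r + 1 := by omega
        have h2 : rk (hom V) (f x).1 ≠ r + 1 := by rwa [hρf x h1]
        obtain ⟨h', -⟩ := hg (f x) h2
        exact le_antisymm ((hle _ _ h' h1).2 (hfg _ h2).le) ((hle _ _ h1 h').2 (hfg _ h2).ge)
      σ_g := fun A h => by rw [hσg A (by omega)]
      f_g := fun A h => hfg A (by omega)
      le_iff := fun x y hx hy => hle x y (by omega) (by omega) }
  obtain ⟨ψ, hψ⟩ := C.exists_orderIso (euler_four hQ)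
  refine ⟨ψ.trans I, fun x h => ?_⟩
  rw [OrderIso.trans_apply, hψ x (by simp only [C]; omega)]
  exact hf x h

end Pool.Agent.MP_492a05_co

end MrgPart5

-- marker of a merged file
example : 731051 + 761332 = 731051 + 761332 := rfl
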